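import Mathlib

/-!
# Beating random colourings for monochromatic k-term progressions

For all `k ≥ 3` and `r ≥ 2` there are a constant `δ` strictly below the random rate
`1 / (2 (k - 1) r ^ (k - 1))` and `r`-colourings `χ n` of `[n]` with `δ n ^ 2 + O(n)` monochromatic
`k`-term progressions.

Sketch. Cut `[n]` into `8 k` blocks. A suitable combination `e` of three block indicators makes the
quadratic form `∑ e(x_i) e(x_j)` over all progressions at most `- c n ^ 2` (the pair counts of two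
neighbouring blocks cancel the diagonal ones, while the pair counts with a third block must drop
somewhere). Colour `x` by colour 0 with probability `(1 + t e(x)) / r`, colour 1 with probability
`(1 - t e(x)) / r`, any other colour with probability `1 / r`; the linear terms cancel, so for small
`t` the expected count is below the random rate. Averaging gives a colouring, and recolouring
`1, 2, …, m` one after the other gives a colouring with count exactly `δ n ^ 2 + O(n)`.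
-/

namespace Pool.Agent.Results.MP_6bff71_co.BeatRandom
open Finset

lemma expand (v : ℕ → ℝ) (ρ : ℝ) (h0 : 0 ≤ ρ) (h1 : ρ ≤ 1) (hv : ∀ i, |v i| ≤ ρ) (m : ℕ) :
    |∑ i ∈ range m, v i| ≤ 3 ^ m * ρ ∧
    |∑ j ∈ range m, ∑ i ∈ range j, v i * v j| ≤ 3 ^ m * ρ ^ 2 ∧
    |∏ i ∈ range m, (1 + v i) - 1 - ∑ i ∈ range m, v i
      - ∑ j ∈ range m, ∑ i ∈ range j, v i * v j| ≤ 3 ^ m * ρ ^ 3 := by
  induction m with
  | zero => simp; refine ⟨h0, by positivity, by positivity⟩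
  | succ m ih =>
    obtain ⟨hS, hD, hE⟩ := ih
    have hvm := hv m
    have h3 : (1 : ℝ) ≤ 3 ^ m := one_le_pow₀ (by norm_num)
    set S := ∑ i ∈ range m, v i with hSdef
    set D := ∑ j ∈ range m, ∑ i ∈ range j, v i * v j with hDdef
    set P := ∏ i ∈ range m, (1 + v i) with hPdef
    have e1 : ∑ i ∈ range m, v i * v m = S * v m := by rw [hSdef, sum_mul]
    rw [sum_range_succ, sum_range_succ, prod_range_succ, e1, ← hSdef, ← hDdef, ← hPdef]
    refine ⟨?_, ?_, ?_⟩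
    · calc |S + v m| ≤ |S| + |v m| := abs_add_le _ _
        _ ≤ 3 ^ m * ρ + ρ := add_le_add hS hvm
        _ ≤ 3 ^ (m + 1) * ρ := by rw [pow_succ]; nlinarith
    · calc |D + S * v m| ≤ |D| + |S * v m| := abs_add_le _ _
        _ = |D| + |S| * |v m| := by rw [abs_mul]
        _ ≤ 3 ^ m * ρ ^ 2 + (3 ^ m * ρ) * ρ := by
            gcongr
        _ ≤ 3 ^ (m + 1) * ρ ^ 2 := by
            have e3 : (3:ℝ) ^ (m + 1) * ρ ^ 2 = 3 * (3 ^ m * ρ ^ 2) := by ring
            have e4 : (3:ℝ) ^ m * ρ * ρ = 3 ^ m * ρ ^ 2 := by ring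
            have e5 : 0 ≤ (3:ℝ) ^ m * ρ ^ 2 := by positivity
            rw [e3, e4]; linarith
    · have e2 : P * (1 + v m) - 1 - (S + v m) - (D + S * v m)
          = (P - 1 - S - D) * (1 + v m) + D * v m := by ring
      rw [e2]
      have h2 : |1 + v m| ≤ 2 := by
        calc |1 + v m| ≤ |(1:ℝ)| + |v m| := abs_add_le _ _
          _ ≤ 1 + 1 := by rw [abs_one]; linarith
          _ = 2 := by norm_num
      calc |(P - 1 - S - D) * (1 + v m) + D * v m|
          ≤ |P - 1 - S - D| * |1 + v m| + |D| * |v m| := by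
            rw [← abs_mul, ← abs_mul]; exact abs_add_le _ _
        _ ≤ (3 ^ m * ρ ^ 3) * 2 + (3 ^ m * ρ ^ 2) * ρ := by gcongr
        _ = 3 ^ (m + 1) * ρ ^ 3 := by ring

lemma derand {r : ℕ} (n : ℕ) (hr : 0 < r) (p : ℕ → Fin r → ℝ) (hp : ∀ x c, 0 ≤ p x c)
    (hs : ∀ x, ∑ c, p x c = 1) {ι : Type*} (P : Finset ι) (S : ι → Finset ℕ)
    (hS : ∀ s ∈ P, S s ⊆ range n) :
    ∃ χ : ℕ → Fin r,
      ((P.filter (fun s => ∃ c, ∀ x ∈ S s, χ x = c)).card : ℝ)
        ≤ ∑ s ∈ P, ∑ c, ∏ x ∈ S s, p x c := by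
  classical
  by_contra hcon
  push Not at hcon
  let ext : (Fin n → Fin r) → ℕ → Fin r := fun f x => if h : x < n then f ⟨x, h⟩ else ⟨0, hr⟩
  let W : (Fin n → Fin r) → ℝ := fun f => ∏ x : Fin n, p x (f x)
  have hW0 : ∀ f, 0 ≤ W f := fun f => prod_nonneg (fun x _ => hp _ _)
  have hW1 : ∑ f, W f = 1 := by
    have := Finset.prod_univ_sum (fun _ : Fin n => (univ : Finset (Fin r)))
      (fun x c => p x c)
    rw [Fintype.piFinset_univ] at this
    show ∑ f : Fin n → Fin r, ∏ x : Fin n, p x (f x) = 1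
    rw [← this]
    simp [hs]
  have key : ∀ s ∈ P, ∀ c : Fin r,
      ∑ f, W f * (if ∀ x ∈ S s, ext f x = c then (1:ℝ) else 0) = ∏ x ∈ S s, p x c := by
    intro s hsP c
    have := Finset.prod_univ_sum (fun _ : Fin n => (univ : Finset (Fin r)))
      (fun x c' => if (x : ℕ) ∈ S s ∧ c' ≠ c then (0:ℝ) else p x c')
    rw [Fintype.piFinset_univ] at this
    have h1 : ∀ f : Fin n → Fin r, W f * (if ∀ x ∈ S s, ext f x = c then (1:ℝ) else 0)
        = ∏ x : Fin n, (if (x : ℕ) ∈ S s ∧ f x ≠ c then (0:ℝ) else p x (f x)) := by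
      intro f
      split_ifs with hf
      · rw [mul_one]
        apply prod_congr rfl
        intro x _
        rw [if_neg]
        rintro ⟨hx1, hx2⟩
        apply hx2
        have := hf x hx1
        simpa [ext] using this
      · push Not at hf
        obtain ⟨x, hx, hne⟩ := hf
        have hxn : x < n := mem_range.mp (hS s hsP hx)
        rw [mul_zero]
        symm
        apply prod_eq_zero (mem_univ (⟨x, hxn⟩ : Fin n))
        rw [if_pos]
        refine ⟨hx, ?_⟩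
        simpa [ext, hxn] using hne
    rw [sum_congr rfl (fun f _ => h1 f), ← this]
    have h2 : ∀ x : Fin n, (∑ c' : Fin r, if (x : ℕ) ∈ S s ∧ c' ≠ c then (0:ℝ) else p x c')
        = if (x : ℕ) ∈ S s then p x c else 1 := by
      intro x
      by_cases hx : (x : ℕ) ∈ S s
      · simp [hx]
      · simp [hx, hs]
    rw [prod_congr rfl (fun x _ => h2 x)]
    rw [Fin.prod_univ_eq_prod_range (fun x => if x ∈ S s then p x c else 1) n]
    rw [← prod_filter]
    apply prod_congr _ (fun _ _ => rfl)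
    ext x
    simp only [mem_filter, mem_range]
    constructor
    · exact fun h => h.2
    · exact fun h => ⟨mem_range.mp (hS s hsP h), h⟩
  set RHS := ∑ s ∈ P, ∑ c, ∏ x ∈ S s, p x c with hR
  have hle : ∑ f, W f * ((P.filter (fun s => ∃ c, ∀ x ∈ S s, ext f x = c)).card : ℝ) ≤ RHS := by
    calc ∑ f, W f * ((P.filter (fun s => ∃ c, ∀ x ∈ S s, ext f x = c)).card : ℝ)
        ≤ ∑ f, W f * ∑ s ∈ P, ∑ c, (if ∀ x ∈ S s, ext f x = c then (1:ℝ) else 0) := by
          apply sum_le_sum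
          intro f _
          apply mul_le_mul_of_nonneg_left _ (hW0 f)
          rw [card_filter, Nat.cast_sum]
          apply sum_le_sum
          intro s _
          split_ifs with h
          · obtain ⟨c, hc⟩ := h
            have h5 := single_le_sum (f := fun c => if ∀ x ∈ S s, ext f x = c then (1:ℝ) else 0)
              (fun c _ => by split_ifs <;> norm_num) (mem_univ c)
            rw [if_pos hc] at h5
            push_cast
            exact h5
          · push_cast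
            exact sum_nonneg (fun c _ => by split_ifs <;> norm_num)
      _ = RHS := by
          simp_rw [mul_sum]
          rw [sum_comm]
          rw [hR]
          apply sum_congr rfl
          intro s hsP
          rw [sum_comm]
          apply sum_congr rfl
          intro c _
          exact key s hsP c
  have hzero : ∀ f, W f = 0 := by
    by_contra hne
    push Not at hne
    obtain ⟨f0, hf0⟩ := hne
    have hpos : 0 < W f0 := lt_of_le_of_ne (hW0 f0) (Ne.symm hf0)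
    have : ∑ f, W f * RHS < ∑ f, W f * ((P.filter (fun s => ∃ c, ∀ x ∈ S s, ext f x = c)).card : ℝ) := by
      apply sum_lt_sum
      · intro f _
        exact mul_le_mul_of_nonneg_left (hcon (ext f)).le (hW0 f)
      · exact ⟨f0, mem_univ _, mul_lt_mul_of_pos_left (hcon (ext f0)) hpos⟩
    rw [← sum_mul, hW1, one_mul] at this
    linarith
  rw [sum_eq_zero (fun f _ => hzero f)] at hW1
  exact zero_ne_one hW1

lemma card_block {m h : ℕ} (hm : 0 < m) (hmh : m ∣ h) (l u : ℕ) :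
    ((Ioc (l * h) ((l + 1) * h)).filter (fun v => v ≡ u [MOD m])).card = h / m := by
  obtain ⟨q, rfl⟩ := hmh
  have h1 := Nat.Ioc_filter_modEq_card (l * (m * q)) ((l + 1) * (m * q)) hm u
  have h2 : (((((l + 1) * (m * q) : ℕ) : ℚ) - (u : ℚ)) / (m : ℚ)) = ((((l * (m * q) : ℕ) : ℚ) - (u : ℚ)) / (m : ℚ)) + (q : ℤ) := by
    have : (m : ℚ) ≠ 0 := by positivity
    field_simp
    push_cast
    ring
  rw [h2, Int.floor_add_intCast] at h1
  rw [Nat.mul_div_cancel_left q hm]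
  have : (0:ℤ) ≤ (q:ℤ) := by positivity
  have h3 : ∀ z : ℤ, max (z + (q:ℤ) - z) 0 = q := by intro z; simp
  rw [h3] at h1
  exact_mod_cast h1

/-- The pairs `(a, d)` describing the `k`-term progressions inside `[n]`. -/
def AP (k n : ℕ) : Finset (ℕ × ℕ) :=
  ((Icc 1 n) ×ˢ (Icc 1 n)).filter (fun p => p.1 + (k - 1) * p.2 ≤ n)

lemma mem_AP {k n : ℕ} (hk : 2 ≤ k) {p : ℕ × ℕ} :
    p ∈ AP k n ↔ 1 ≤ p.1 ∧ 1 ≤ p.2 ∧ p.1 + (k - 1) * p.2 ≤ n := by
  unfold AP
  rw [mem_filter, mem_product, mem_Icc, mem_Icc]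
  constructor
  · rintro ⟨⟨⟨h1, h2⟩, ⟨h3, h4⟩⟩, h5⟩
    exact ⟨h1, h3, h5⟩
  · rintro ⟨h1, h2, h3⟩
    have : p.2 ≤ (k - 1) * p.2 := Nat.le_mul_of_pos_left _ (by omega)
    exact ⟨⟨⟨h1, by omega⟩, ⟨h2, by omega⟩⟩, h3⟩

/-- The `l`-th block of length `h`. -/
def B (h l : ℕ) : Finset ℕ := Ioc (l * h) ((l + 1) * h)

/-- The pairs of `U × V` congruent modulo `m`. -/
def RR (m : ℕ) (U V : Finset ℕ) : Finset (ℕ × ℕ) :=
  (U ×ˢ V).filter (fun p => p.2 ≡ p.1 [MOD m])

/-- The number of progressions whose `i`-th term is in `U` and whose `j`-th term is in `V`. -/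
def cc (k n i j : ℕ) (U V : Finset ℕ) : ℕ :=
  ((AP k n).filter (fun p => p.1 + i * p.2 ∈ U ∧ p.1 + j * p.2 ∈ V)).card

lemma card_B (h l : ℕ) : (B h l).card = h := by
  unfold B
  rw [Nat.card_Ioc, Nat.succ_mul]; omega

lemma card_RR {m h : ℕ} (hm : 0 < m) (hmh : m ∣ h) (l l' : ℕ) :
    (RR m (B h l) (B h l')).card = h * (h / m) := by
  unfold RR
  rw [card_filter, sum_product]
  have : ∀ u ∈ B h l, (∑ v ∈ B h l', if v ≡ u [MOD m] then 1 else 0) = h / m := by
    intro u _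
    rw [← card_filter]
    exact card_block hm hmh l' u
  rw [sum_congr rfl this, sum_const, card_B, smul_eq_mul]

lemma inj_pair {i j : ℕ} (hij : i < j) :
    Function.Injective (fun p : ℕ × ℕ => (p.1 + i * p.2, p.1 + j * p.2)) := by
  rintro ⟨a, d⟩ ⟨a', d'⟩ h
  simp only [Prod.mk.injEq] at h
  obtain ⟨h1, h2⟩ := h
  obtain ⟨m, rfl⟩ := Nat.exists_eq_add_of_lt hij
  have h3 : (m + 1) * d = (m + 1) * d' := by nlinarith
  have h4 : d = d' := Nat.eq_of_mul_eq_mul_left (by omega) h3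
  subst h4
  have : a = a' := by omega
  rw [this]

lemma cc_le {k n i j : ℕ} (hij : i < j) (U V : Finset ℕ) :
    cc k n i j U V ≤ (RR (j - i) U V).card := by
  unfold cc
  apply card_le_card_of_injOn (fun p : ℕ × ℕ => (p.1 + i * p.2, p.1 + j * p.2))
  · intro p hp
    have hp' := mem_filter.mp hp
    unfold RR
    simp only [coe_filter, mem_product, Set.mem_ofPred_eq]
    refine ⟨hp'.2, ?_⟩
    have e : p.1 + j * p.2 = p.1 + i * p.2 + (j - i) * p.2 := by
      obtain ⟨m, rfl⟩ := Nat.exists_eq_add_of_lt hij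
      have : i + m + 1 - i = m + 1 := by omega
      rw [this]; ring
    rw [e]
    exact (Nat.modEq_iff_dvd' (by omega)).mpr ⟨p.2, by omega⟩ |>.symm
  · exact (inj_pair hij).injOn

lemma cc_self {k n i j : ℕ} (hk : 2 ≤ k) (hij : i < j) (U : Finset ℕ) :
    2 * cc k n i j U U ≤ (RR (j - i) U U).card := by
  have h1 : cc k n i j U U ≤ ((RR (j - i) U U).filter (fun p => p.1 < p.2)).card := by
    unfold cc
    apply card_le_card_of_injOn (fun p : ℕ × ℕ => (p.1 + i * p.2, p.1 + j * p.2))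
    · intro p hp
      have hp' := mem_filter.mp hp
      have hd : 1 ≤ p.2 := ((mem_AP hk).mp hp'.1).2.1
      unfold RR
      simp only [coe_filter, mem_product, mem_filter, Set.mem_ofPred_eq]
      obtain ⟨m, rfl⟩ := Nat.exists_eq_add_of_lt hij
      have e2 : i + m + 1 - i = m + 1 := by omega
      have e : p.1 + (i + m + 1) * p.2 = p.1 + i * p.2 + (m + 1) * p.2 := by ring
      refine ⟨⟨hp'.2, ?_⟩, ?_⟩
      · rw [e, e2]
        exact (Nat.modEq_iff_dvd' (by omega)).mpr ⟨p.2, by omega⟩ |>.symm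
      · rw [e]
        have : 0 < (m + 1) * p.2 := by positivity
        omega
    · exact (inj_pair hij).injOn
  have h2 : ((RR (j - i) U U).filter (fun p => p.1 < p.2)).card
      ≤ ((RR (j - i) U U).filter (fun p => p.2 < p.1)).card := by
    apply card_le_card_of_injOn Prod.swap
    · intro p hp
      unfold RR at hp ⊢
      simp only [coe_filter, mem_product, mem_filter, Set.mem_ofPred_eq, Prod.fst_swap,
        Prod.snd_swap] at hp ⊢
      exact ⟨⟨⟨hp.1.1.2, hp.1.1.1⟩, hp.1.2.symm⟩, hp.2⟩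
    · exact Prod.swap_injective.injOn
  have h3 : ((RR (j - i) U U).filter (fun p => p.1 < p.2)).card
      + ((RR (j - i) U U).filter (fun p => p.2 < p.1)).card ≤ (RR (j - i) U U).card := by
    rw [← card_union_of_disjoint]
    · apply card_le_card
      intro p hp
      rcases mem_union.mp hp with hp | hp
      · exact (mem_filter.mp hp).1
      · exact (mem_filter.mp hp).1
    · rw [disjoint_left]
      intro p hp hp'
      have a1 := (mem_filter.mp hp).2
      have a2 := (mem_filter.mp hp').2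
      omega
  omega

lemma cc_ge {k n i j : ℕ} (hk : 2 ≤ k) (hij : i < j) (hj : j < k) (U V : Finset ℕ)
    (hlt : ∀ u ∈ U, ∀ v ∈ V, u < v)
    (hlow : ∀ u ∈ U, ∀ v ∈ V, k * (v - u) < u)
    (hhigh : ∀ u ∈ U, ∀ v ∈ V, u + k * (v - u) ≤ n) :
    (RR (j - i) U V).card ≤ cc k n i j U V := by
  unfold cc
  apply card_le_card_of_injOn
    (fun p : ℕ × ℕ => (p.1 - i * ((p.2 - p.1) / (j - i)), (p.2 - p.1) / (j - i)))
  · intro p hp
    unfold RR at hp
    simp only [coe_filter, mem_product, Set.mem_ofPred_eq] at hp ⊢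
    obtain ⟨⟨hu, hv⟩, hmod⟩ := hp
    have hlt' := hlt _ hu _ hv
    have hl := hlow _ hu _ hv
    have hh := hhigh _ hu _ hv
    have hdvd : (j - i) ∣ p.2 - p.1 := (Nat.modEq_iff_dvd' hlt'.le).mp hmod.symm
    obtain ⟨d, hd⟩ := hdvd
    have hm : 0 < j - i := by omega
    have hdd : (p.2 - p.1) / (j - i) = d := by rw [hd, Nat.mul_div_cancel_left _ hm]
    rw [hdd]
    have hdle : d ≤ p.2 - p.1 := by rw [hd]; exact Nat.le_mul_of_pos_left _ hm
    have hid : i * d ≤ k * (p.2 - p.1) := Nat.mul_le_mul (by omega) hdle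
    have hd1 : 1 ≤ d := by
      rcases Nat.eq_zero_or_pos d with h0 | h0
      · rw [h0, mul_zero] at hd; omega
      · exact h0
    have hk1 : (k - 1) * d ≤ k * (p.2 - p.1) := Nat.mul_le_mul (by omega) hdle
    have e1 : p.1 - i * d + i * d = p.1 := by omega
    have e2 : p.1 - i * d + j * d = p.2 := by
      have : j * d = i * d + (j - i) * d := by rw [← Nat.add_mul]; congr 1; omega
      rw [this, ← hd]; omega
    refine ⟨(mem_AP hk).mpr ⟨by simp only; omega, hd1, by simp only; omega⟩, ?_, ?_⟩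
    · rw [e1]; exact hu
    · rw [e2]; exact hv
  · intro p hp q hq hpq
    unfold RR at hp hq
    simp only [coe_filter, mem_product, Set.mem_ofPred_eq] at hp hq
    simp only [Prod.mk.injEq] at hpq
    obtain ⟨⟨hu, hv⟩, hmod⟩ := hp
    obtain ⟨⟨hu', hv'⟩, hmod'⟩ := hq
    have hlt1 := hlt _ hu _ hv
    have hlt2 := hlt _ hu' _ hv'
    have hl1 := hlow _ hu _ hv
    have hl2 := hlow _ hu' _ hv'
    obtain ⟨d, hd⟩ := (Nat.modEq_iff_dvd' hlt1.le).mp hmod.symm
    obtain ⟨d', hd'⟩ := (Nat.modEq_iff_dvd' hlt2.le).mp hmod'.symm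
    have hm : 0 < j - i := by omega
    have hdd : (p.2 - p.1) / (j - i) = d := by rw [hd, Nat.mul_div_cancel_left _ hm]
    have hdd' : (q.2 - q.1) / (j - i) = d' := by rw [hd', Nat.mul_div_cancel_left _ hm]
    rw [hdd, hdd'] at hpq
    obtain ⟨h1, h2⟩ := hpq
    subst h2
    have hdle : d ≤ p.2 - p.1 := by rw [hd]; exact Nat.le_mul_of_pos_left _ hm
    have hid : i * d ≤ k * (p.2 - p.1) := Nat.mul_le_mul (by omega) hdle
    have hdle' : d ≤ q.2 - q.1 := by rw [hd']; exact Nat.le_mul_of_pos_left _ hm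
    have hid' : i * d ≤ k * (q.2 - q.1) := Nat.mul_le_mul (by omega) hdle'
    ext
    · omega
    · omega

/-- Indicator of a block. -/
noncomputable def I (h l x : ℕ) : ℝ := if x ∈ B h l then 1 else 0

/-- The quadratic form attached to the progressions. -/
noncomputable def Q (k n : ℕ) (e : ℕ → ℝ) : ℝ :=
  ∑ p ∈ AP k n, ∑ j ∈ range k, ∑ i ∈ range j, e (p.1 + i * p.2) * e (p.1 + j * p.2)

lemma sum_I (k n i j h l l' : ℕ) :
    ∑ p ∈ AP k n, I h l (p.1 + i * p.2) * I h l' (p.1 + j * p.2)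
      = (cc k n i j (B h l) (B h l') : ℝ) := by
  unfold cc I
  rw [card_filter, Nat.cast_sum]
  apply sum_congr rfl
  intro p _
  by_cases h1 : p.1 + i * p.2 ∈ B h l <;> by_cases h2 : p.1 + j * p.2 ∈ B h l' <;> simp [h1, h2]

lemma mem_B {h l x : ℕ} : x ∈ B h l ↔ l * h < x ∧ x ≤ l * h + h := by
  unfold B; rw [mem_Ioc, Nat.succ_mul]

lemma cc_zero_of_gt {k n i j h l l' : ℕ} (hij : i < j) (hl : l < l') :
    cc k n i j (B h l') (B h l) = 0 := by
  unfold cc
  rw [card_eq_zero, filter_eq_empty_iff]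
  rintro p _ ⟨h1, h2⟩
  rw [mem_B] at h1 h2
  have h3 : i * p.2 ≤ j * p.2 := Nat.mul_le_mul_right _ hij.le
  have h4 : l * h + h ≤ l' * h := by
    rw [← Nat.succ_mul]; exact Nat.mul_le_mul_right _ hl
  omega

lemma cc_le_block {k n i j h : ℕ} (hij : i < j) (hd : (j - i) ∣ h) (l l' : ℕ) :
    (cc k n i j (B h l) (B h l') : ℝ) ≤ ((h * (h / (j - i)) : ℕ) : ℝ) := by
  have := cc_le (k := k) (n := n) hij (B h l) (B h l')
  rw [card_RR (by omega) hd] at this
  exact_mod_cast this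

lemma cc_self_block {k n i j h : ℕ} (hk : 2 ≤ k) (hij : i < j) (hd : (j - i) ∣ h) (l : ℕ) :
    2 * (cc k n i j (B h l) (B h l) : ℝ) ≤ ((h * (h / (j - i)) : ℕ) : ℝ) := by
  have := cc_self (k := k) (n := n) hk hij (B h l)
  rw [card_RR (by omega) hd] at this
  exact_mod_cast this

lemma cc_next {k i j h : ℕ} (hk : 3 ≤ k) (hij : i < j) (hj : j < k) (hd : (j - i) ∣ h) (l : ℕ)
    (hl : 2 * k ≤ l) (hl' : l + 1 ≤ 6 * k) :
    ((h * (h / (j - i)) : ℕ) : ℝ) ≤ (cc k (8 * k * h) i j (B h l) (B h (l + 1)) : ℝ) := by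
  have := cc_ge (k := k) (n := 8 * k * h) (by omega) hij hj (B h l) (B h (l + 1)) ?_ ?_ ?_
  · rw [card_RR (by omega) hd] at this
    exact_mod_cast this
  · intro u hu v hv
    rw [mem_B] at hu hv
    have : (l + 1) * h = l * h + h := by ring
    omega
  · intro u hu v hv
    rw [mem_B] at hu hv
    have e : (l + 1) * h = l * h + h := by ring
    have h1 : v - u ≤ 2 * h := by omega
    have h2 : k * (v - u) ≤ k * (2 * h) := Nat.mul_le_mul_left _ h1
    have h3 : k * (2 * h) ≤ l * h := by nlinarith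
    omega
  · intro u hu v hv
    rw [mem_B] at hu hv
    have e : (l + 1) * h = l * h + h := by ring
    have h1 : v - u ≤ 2 * h := by omega
    have h2 : k * (v - u) ≤ k * (2 * h) := Nat.mul_le_mul_left _ h1
    have h3 : (l + 1) * h + k * (2 * h) ≤ 8 * k * h := by nlinarith
    omega

lemma cc_far {k h : ℕ} (hk : 3 ≤ k) :
    cc k (8 * k * h) 0 1 (B h (2 * k)) (B h (6 * k)) = 0 := by
  unfold cc
  rw [card_eq_zero, filter_eq_empty_iff]
  rintro p hp ⟨h1, h2⟩
  rw [mem_AP (by omega)] at hp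
  rw [mem_B] at h1 h2
  obtain ⟨_, _, hp⟩ := hp
  obtain ⟨K, rfl⟩ : ∃ K, k = K + 1 := ⟨k - 1, by omega⟩
  rw [Nat.add_sub_cancel] at hp
  have hd : (4 * (K + 1)) * h < p.2 + h := by nlinarith
  have h5 : K * ((4 * (K + 1)) * h) ≤ K * (p.2 + h) := Nat.mul_le_mul_left _ hd.le
  have hK : 2 ≤ K := by omega
  nlinarith [Nat.mul_le_mul_right (K * h) hK]

/-- Double sum over `i < j < k`. -/
lemma dsum_le {k : ℕ} (f g : ℕ → ℕ → ℝ) (h : ∀ j < k, ∀ i < j, f i j ≤ g i j) :
    ∑ j ∈ range k, ∑ i ∈ range j, f i j ≤ ∑ j ∈ range k, ∑ i ∈ range j, g i j :=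
  sum_le_sum (fun j hj => sum_le_sum (fun i hi => h j (mem_range.mp hj) i (mem_range.mp hi)))

lemma exists_step {k h : ℕ} (hk : 3 ≤ k) (hdiv : ∀ m, 1 ≤ m → m < k → m ∣ h) :
    ∃ l, 2 * k ≤ l ∧ l + 2 ≤ 6 * k ∧
      (h : ℝ) ^ 2 / (4 * k) ≤
        (∑ j ∈ range k, ∑ i ∈ range j, (cc k (8 * k * h) i j (B h (l + 1)) (B h (6 * k)) : ℝ))
        - ∑ j ∈ range k, ∑ i ∈ range j, (cc k (8 * k * h) i j (B h l) (B h (6 * k)) : ℝ) := by
  set T : ℕ → ℝ := fun l =>
    ∑ j ∈ range k, ∑ i ∈ range j, (cc k (8 * k * h) i j (B h l) (B h (6 * k)) : ℝ) with hT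
  set K : ℝ := ∑ j ∈ range k, ∑ i ∈ range j, ((h * (h / (j - i)) : ℕ) : ℝ) with hK
  have hdj : ∀ i j, i < j → j < k → (j - i) ∣ h := fun i j h1 h2 => hdiv _ (by omega) (by omega)
  have h1 : K ≤ T (6 * k - 1) := by
    apply dsum_le
    intro j hj i hi
    have := cc_next hk hi hj (hdj i j hi hj) (6 * k - 1) (by omega) (by omega)
    rwa [show 6 * k - 1 + 1 = 6 * k by omega] at this
  have h2 : (h : ℝ) ^ 2 ≤ K - T (2 * k) := by
    rw [hK, hT]
    simp only
    rw [← sum_sub_distrib]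
    have hnn : ∀ j < k, ∀ i < j, 0 ≤ ((h * (h / (j - i)) : ℕ) : ℝ)
        - (cc k (8 * k * h) i j (B h (2 * k)) (B h (6 * k)) : ℝ) := by
      intro j hj i hi
      have := cc_le_block (k := k) (n := 8 * k * h) hi (hdj i j hi hj) (2 * k) (6 * k)
      linarith
    have h3 : (∑ i ∈ range 1, ((h * (h / (1 - i)) : ℕ) : ℝ)) -
        ∑ i ∈ range 1, (cc k (8 * k * h) i 1 (B h (2 * k)) (B h (6 * k)) : ℝ) = (h : ℝ) ^ 2 := by
      rw [sum_range_one, sum_range_one, cc_far hk]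
      simp
      ring
    rw [← h3]
    apply single_le_sum (f := fun j => (∑ i ∈ range j, ((h * (h / (j - i)) : ℕ) : ℝ)) -
        ∑ i ∈ range j, (cc k (8 * k * h) i j (B h (2 * k)) (B h (6 * k)) : ℝ)) (a := 1)
    · intro j hj
      rw [← sum_sub_distrib]
      exact sum_nonneg (fun i hi => hnn j (mem_range.mp hj) i (mem_range.mp hi))
    · exact mem_range.mpr (by omega)
  have h4 : ∑ s ∈ range (4 * k - 1), (T (2 * k + (s + 1)) - T (2 * k + s))
      = T (6 * k - 1) - T (2 * k) := by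
    rw [sum_range_sub (fun s => T (2 * k + s))]
    rw [show 2 * k + (4 * k - 1) = 6 * k - 1 by omega]
    simp
  have h5 : ∑ s ∈ range (4 * k - 1), (h : ℝ) ^ 2 / (4 * k)
      ≤ ∑ s ∈ range (4 * k - 1), (T (2 * k + (s + 1)) - T (2 * k + s)) := by
    rw [h4, sum_const, card_range, nsmul_eq_mul]
    have hkpos : (0 : ℝ) < 4 * k := by positivity
    have h6 : ((4 * k - 1 : ℕ) : ℝ) * ((h : ℝ) ^ 2 / (4 * k)) ≤ (4 * k : ℝ) * ((h : ℝ) ^ 2 / (4 * k)) := by
      apply mul_le_mul_of_nonneg_right _ (by positivity)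
      have : ((4 * k - 1 : ℕ) : ℝ) ≤ ((4 * k : ℕ) : ℝ) := by exact_mod_cast Nat.sub_le _ _
      push_cast at this
      exact this
    rw [mul_div_cancel₀ _ hkpos.ne'] at h6
    linarith
  obtain ⟨s, hs, hs'⟩ := exists_le_of_sum_le (nonempty_range_iff.mpr (by omega)) h5
  have hs2 := mem_range.mp hs
  exact ⟨2 * k + s, by omega, by omega, hs'⟩

lemma quad {k h : ℕ} (hk : 3 ≤ k) (hdiv : ∀ m, 1 ≤ m → m < k → m ∣ h) :
    ∃ e : ℕ → ℝ, (∀ x, |e x| ≤ 8 * (k : ℝ) ^ 3) ∧ Q k (8 * k * h) e ≤ - (h : ℝ) ^ 2 := by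
  obtain ⟨l, hl1, hl2, hstep⟩ := exists_step hk hdiv
  set n := 8 * k * h with hn
  set A : ℝ := 8 * (k : ℝ) ^ 3 with hA
  have hk1 : (3 : ℝ) ≤ k := by exact_mod_cast hk
  have hA1 : 1 ≤ A := by
    have : (1 : ℝ) ≤ (k : ℝ) ^ 3 := one_le_pow₀ (by linarith)
    linarith
  have hdj : ∀ i j, i < j → j < k → (j - i) ∣ h := fun i j h1 h2 => hdiv _ (by omega) (by omega)
  refine ⟨fun x => A * I h l x - A * I h (l + 1) x + I h (6 * k) x, ?_, ?_⟩
  · intro x
    have hb : ∀ a b : ℕ, a < b → a * h + h ≤ b * h := by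
      intro a b hab
      rw [← Nat.succ_mul]; exact Nat.mul_le_mul_right _ hab
    have c1 := hb l (l + 1) (by omega)
    have c2 := hb l (6 * k) (by omega)
    have c3 := hb (l + 1) (6 * k) (by omega)
    unfold I
    by_cases h1 : x ∈ B h l
    · have h2 : x ∉ B h (l + 1) := by rw [mem_B] at *; omega
      have h3 : x ∉ B h (6 * k) := by rw [mem_B] at *; omega
      simp [h1, h2, h3, abs_of_nonneg (le_trans zero_le_one hA1)]
    · by_cases h2 : x ∈ B h (l + 1)
      · have h3 : x ∉ B h (6 * k) := by rw [mem_B] at *; omega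
        simp [h1, h2, h3, abs_of_nonneg (le_trans zero_le_one hA1)]
      · by_cases h3 : x ∈ B h (6 * k)
        · simp [h1, h2, h3, hA1]
        · simp [h1, h2, h3]; linarith
  · unfold Q
    have e1 : ∑ p ∈ AP k n, ∑ j ∈ range k, ∑ i ∈ range j,
        (A * I h l (p.1 + i * p.2) - A * I h (l + 1) (p.1 + i * p.2) + I h (6 * k) (p.1 + i * p.2)) *
        (A * I h l (p.1 + j * p.2) - A * I h (l + 1) (p.1 + j * p.2) + I h (6 * k) (p.1 + j * p.2))
      = ∑ j ∈ range k, ∑ i ∈ range j,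
        (A ^ 2 * (cc k n i j (B h l) (B h l)) - A ^ 2 * (cc k n i j (B h l) (B h (l + 1)))
          - A ^ 2 * (cc k n i j (B h (l + 1)) (B h l))
          + A ^ 2 * (cc k n i j (B h (l + 1)) (B h (l + 1)))
          + A * (cc k n i j (B h l) (B h (6 * k))) + A * (cc k n i j (B h (6 * k)) (B h l))
          - A * (cc k n i j (B h (l + 1)) (B h (6 * k)))
          - A * (cc k n i j (B h (6 * k)) (B h (l + 1)))
          + (cc k n i j (B h (6 * k)) (B h (6 * k)) : ℝ)) := by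
      rw [sum_comm]
      apply sum_congr rfl
      intro j _
      rw [sum_comm]
      apply sum_congr rfl
      intro i _
      simp only [← sum_I, mul_sum, ← sum_add_distrib, ← sum_sub_distrib]
      apply sum_congr rfl
      intro p _
      ring
    rw [e1]
    have e2 : ∀ j < k, ∀ i < j,
        (A ^ 2 * (cc k n i j (B h l) (B h l)) - A ^ 2 * (cc k n i j (B h l) (B h (l + 1)))
          - A ^ 2 * (cc k n i j (B h (l + 1)) (B h l))
          + A ^ 2 * (cc k n i j (B h (l + 1)) (B h (l + 1)))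
          + A * (cc k n i j (B h l) (B h (6 * k))) + A * (cc k n i j (B h (6 * k)) (B h l))
          - A * (cc k n i j (B h (l + 1)) (B h (6 * k)))
          - A * (cc k n i j (B h (6 * k)) (B h (l + 1)))
          + (cc k n i j (B h (6 * k)) (B h (6 * k)) : ℝ))
        ≤ (A * (cc k n i j (B h l) (B h (6 * k))) - A * (cc k n i j (B h (l + 1)) (B h (6 * k))))
          + (h : ℝ) ^ 2 := by
      intro j hj i hi
      have a1 := cc_self_block (k := k) (n := n) (by omega) hi (hdj i j hi hj) l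
      have a2 := cc_self_block (k := k) (n := n) (by omega) hi (hdj i j hi hj) (l + 1)
      have a3 := cc_self_block (k := k) (n := n) (by omega) hi (hdj i j hi hj) (6 * k)
      have a4 := cc_next hk hi hj (hdj i j hi hj) l (by omega) (by omega)
      rw [← hn] at a4
      have a5 : cc k n i j (B h (6 * k)) (B h l) = 0 := cc_zero_of_gt hi (by omega)
      have a6 : cc k n i j (B h (6 * k)) (B h (l + 1)) = 0 := cc_zero_of_gt hi (by omega)
      have a7 : cc k n i j (B h (l + 1)) (B h l) = 0 := cc_zero_of_gt hi (by omega)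
      have a8 : ((h * (h / (j - i)) : ℕ) : ℝ) ≤ (h : ℝ) ^ 2 := by
        have : h * (h / (j - i)) ≤ h * h := Nat.mul_le_mul_left _ (Nat.div_le_self _ _)
        rw [sq]
        exact_mod_cast this
      rw [a5, a6, a7]
      have a9 : (cc k n i j (B h l) (B h l) : ℝ) + (cc k n i j (B h (l + 1)) (B h (l + 1)) : ℝ)
          - (cc k n i j (B h l) (B h (l + 1)) : ℝ) ≤ 0 := by linarith
      have a10 : (0:ℝ) ≤ (cc k n i j (B h (6 * k)) (B h (6 * k)) : ℝ) := Nat.cast_nonneg _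
      have a11 := mul_nonneg (sq_nonneg A) (neg_nonneg.mpr a9)
      push_cast
      nlinarith
    refine le_trans (dsum_le _ _ e2) ?_
    have e3 : ∑ j ∈ range k, ∑ i ∈ range j,
        ((A * (cc k n i j (B h l) (B h (6 * k))) - A * (cc k n i j (B h (l + 1)) (B h (6 * k))))
          + (h : ℝ) ^ 2)
        = A * ((∑ j ∈ range k, ∑ i ∈ range j, (cc k n i j (B h l) (B h (6 * k)) : ℝ)) -
          ∑ j ∈ range k, ∑ i ∈ range j, (cc k n i j (B h (l + 1)) (B h (6 * k)) : ℝ))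
          + ∑ j ∈ range k, ∑ i ∈ range j, (h : ℝ) ^ 2 := by
      simp only [mul_sub, mul_sum, ← sum_add_distrib, ← sum_sub_distrib]
    rw [e3]
    have e4 : ∑ j ∈ range k, ∑ i ∈ range j, (h : ℝ) ^ 2 ≤ (k : ℝ) ^ 2 * (h : ℝ) ^ 2 := by
      calc ∑ j ∈ range k, ∑ i ∈ range j, (h : ℝ) ^ 2
          ≤ ∑ j ∈ range k, (k : ℝ) * (h : ℝ) ^ 2 := by
            apply sum_le_sum
            intro j hj
            rw [sum_const, card_range, nsmul_eq_mul]
            apply mul_le_mul_of_nonneg_right _ (sq_nonneg _)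
            exact_mod_cast (mem_range.mp hj).le
        _ = (k : ℝ) ^ 2 * (h : ℝ) ^ 2 := by
            rw [sum_const, card_range, nsmul_eq_mul]; ring
    have e5 : A * ((h : ℝ) ^ 2 / (4 * k)) = 2 * (k : ℝ) ^ 2 * (h : ℝ) ^ 2 := by
      rw [hA]; field_simp; ring
    have e6 := mul_le_mul_of_nonneg_left hstep (le_trans zero_le_one hA1)
    rw [e5] at e6
    have e7 : (h : ℝ) ^ 2 ≤ (k : ℝ) ^ 2 * (h : ℝ) ^ 2 := by
      have : (1 : ℝ) ≤ (k : ℝ) ^ 2 := one_le_pow₀ (by linarith)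
      nlinarith [sq_nonneg (h : ℝ)]
    nlinarith


lemma card_AP_succ {k : ℕ} (hk : 2 ≤ k) (n : ℕ) :
    (AP k (n + 1)).card = (AP k n).card + n / (k - 1) := by
  have h1 : AP k (n + 1) = AP k n ∪
      (Icc 1 (n / (k - 1))).image (fun d => (n + 1 - (k - 1) * d, d)) := by
    ext p
    rw [mem_union, mem_AP hk, mem_AP hk, mem_image]
    constructor
    · rintro ⟨a1, a2, a3⟩
      by_cases h : p.1 + (k - 1) * p.2 ≤ n
      · exact Or.inl ⟨a1, a2, h⟩
      · right
        refine ⟨p.2, ?_, ?_⟩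
        · rw [mem_Icc]
          refine ⟨a2, ?_⟩
          rw [Nat.le_div_iff_mul_le (by omega)]
          rw [mul_comm]; omega
        · ext
          · simp only; omega
          · rfl
    · rintro (⟨a1, a2, a3⟩ | ⟨d, hd, rfl⟩)
      · exact ⟨a1, a2, by omega⟩
      · rw [mem_Icc, Nat.le_div_iff_mul_le (by omega), mul_comm] at hd
        refine ⟨?_, hd.1, ?_⟩
        · simp only; omega
        · simp only; omega
  have h2 : Disjoint (AP k n)
      ((Icc 1 (n / (k - 1))).image (fun d => (n + 1 - (k - 1) * d, d))) := by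
    rw [disjoint_left]
    rintro p hp hp'
    rw [mem_AP hk] at hp
    obtain ⟨d, hd, rfl⟩ := mem_image.mp hp'
    rw [mem_Icc, Nat.le_div_iff_mul_le (by omega), mul_comm] at hd
    have := hp.2.2
    simp only at this
    omega
  rw [h1, card_union_of_disjoint h2, card_image_of_injective, Nat.card_Icc]
  · simp
  · intro a b hab
    simpa using (Prod.mk.inj hab).2

lemma card_AP_upper {k : ℕ} (hk : 2 ≤ k) (n : ℕ) :
    2 * (k - 1) * (AP k n).card ≤ n ^ 2 := by
  induction n with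
  | zero =>
    have : AP k 0 = ∅ := by
      rw [eq_empty_iff_forall_notMem]
      intro p hp
      have := (mem_AP hk).mp hp
      omega
    simp [this]
  | succ n ih =>
    rw [card_AP_succ hk]
    have : (k - 1) * (n / (k - 1)) ≤ n := Nat.mul_div_le _ _
    nlinarith

lemma card_AP_lower {k : ℕ} (hk : 2 ≤ k) (n : ℕ) :
    n ^ 2 ≤ 2 * (k - 1) * (AP k n).card + 4 * (k - 1) * n := by
  induction n with
  | zero => simp
  | succ n ih =>
    rw [card_AP_succ hk]
    have h1 : n < (k - 1) * (n / (k - 1)) + (k - 1) := by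
      have := Nat.lt_mul_div_succ n (show 0 < k - 1 by omega)
      rw [mul_add, mul_one] at this
      exact this
    have h2 : 1 ≤ k - 1 := by omega
    nlinarith

/-- Number of monochromatic progressions, counted by `(a, d)`. -/
noncomputable def mc (k n : ℕ) {r : ℕ} (χ : ℕ → Fin r) : ℕ :=
  ((AP k n).filter (fun p => ∃ c, ∀ i < k, χ (p.1 + i * p.2) = c)).card

lemma mc_succ {k r : ℕ} (hk : 2 ≤ k) (n : ℕ) (χ : ℕ → Fin r) :
    mc k (n + 1) χ ≤ mc k n χ + n := by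
  classical
  have h0 : AP k n ⊆ AP k (n + 1) := by
    intro p hp
    rw [mem_AP hk] at hp ⊢
    exact ⟨hp.1, hp.2.1, by omega⟩
  have h1 : ((AP k (n + 1)) \ (AP k n)).card ≤ n := by
    have := card_sdiff_add_card_eq_card h0
    rw [card_AP_succ hk] at this
    have h2 := Nat.div_le_self n (k - 1)
    omega
  unfold mc
  have h3 : (AP k (n + 1)).filter (fun p => ∃ c, ∀ i < k, χ (p.1 + i * p.2) = c)
      ⊆ ((AP k n).filter (fun p => ∃ c, ∀ i < k, χ (p.1 + i * p.2) = c)) ∪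
        ((AP k (n + 1)) \ (AP k n)) := by
    intro p hp
    rw [mem_filter] at hp
    rw [mem_union, mem_filter, mem_sdiff]
    by_cases h : p ∈ AP k n
    · exact Or.inl ⟨h, hp.2⟩
    · exact Or.inr ⟨hp.1, h⟩
  calc _ ≤ _ := card_le_card h3
    _ ≤ _ := card_union_le _ _
    _ ≤ _ := Nat.add_le_add_left h1 _

lemma mc_add {k r : ℕ} (hk : 2 ≤ k) (n s : ℕ) (χ : ℕ → Fin r) :
    mc k (n + s) χ ≤ mc k n χ + s * (n + s) := by
  induction s with
  | zero => simp
  | succ s ih =>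
    have := mc_succ hk (n + s) χ
    rw [← add_assoc]
    nlinarith

/-- Recolour `[1, m]` by one colour. -/
def rec0 {r : ℕ} (c0 : Fin r) (χ : ℕ → Fin r) (m : ℕ) : ℕ → Fin r :=
  fun x => if x ≤ m then c0 else χ x

lemma mc_rec_zero {k r : ℕ} (hk : 2 ≤ k) (n : ℕ) (c0 : Fin r) (χ : ℕ → Fin r) :
    mc k n (rec0 c0 χ 0) = mc k n χ := by
  unfold mc
  congr 1
  apply filter_congr
  intro p hp
  rw [mem_AP hk] at hp
  have : ∀ i, rec0 c0 χ 0 (p.1 + i * p.2) = χ (p.1 + i * p.2) := by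
    intro i
    unfold rec0
    rw [if_neg (by omega)]
  simp only [this]

lemma mc_rec_n {k r : ℕ} (hk : 2 ≤ k) (n : ℕ) (c0 : Fin r) (χ : ℕ → Fin r) :
    mc k n (rec0 c0 χ n) = (AP k n).card := by
  unfold mc
  congr 1
  apply filter_true_of_mem
  intro p hp
  rw [mem_AP hk] at hp
  refine ⟨c0, fun i hi => ?_⟩
  unfold rec0
  rw [if_pos]
  have : i * p.2 ≤ (k - 1) * p.2 := Nat.mul_le_mul_right _ (by omega)
  omega

lemma mc_rec_succ {k r : ℕ} (n m : ℕ) (c0 : Fin r) (χ : ℕ → Fin r) :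
    mc k n (rec0 c0 χ (m + 1)) ≤ mc k n (rec0 c0 χ m) + k * n := by
  classical
  unfold mc
  have h3 : (AP k n).filter (fun p => ∃ c, ∀ i < k, rec0 c0 χ (m + 1) (p.1 + i * p.2) = c)
      ⊆ ((AP k n).filter (fun p => ∃ c, ∀ i < k, rec0 c0 χ m (p.1 + i * p.2) = c)) ∪
        ((range k).biUnion
          (fun i => (Icc 1 n).image (fun d => (m + 1 - i * d, d)))) := by
    intro p hp
    rw [mem_filter] at hp
    rw [mem_union]
    by_cases h : ∃ i < k, p.1 + i * p.2 = m + 1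
    · right
      obtain ⟨i, hi, hi'⟩ := h
      rw [mem_biUnion]
      refine ⟨i, mem_range.mpr hi, ?_⟩
      rw [mem_image]
      refine ⟨p.2, ?_, ?_⟩
      · have := (mem_filter.mp hp.1).1
        exact (mem_product.mp this).2
      · ext
        · simp only; omega
        · rfl
    · left
      push Not at h
      rw [mem_filter]
      refine ⟨hp.1, ?_⟩
      obtain ⟨c, hc⟩ := hp.2
      refine ⟨c, fun i hi => ?_⟩
      rw [← hc i hi]
      unfold rec0
      have := h i hi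
      by_cases h4 : p.1 + i * p.2 ≤ m
      · rw [if_pos h4, if_pos (by omega)]
      · rw [if_neg h4, if_neg (by omega)]
  calc _ ≤ _ := card_le_card h3
    _ ≤ _ := card_union_le _ _
    _ ≤ _ := by
      apply Nat.add_le_add_left
      calc _ ≤ ∑ i ∈ range k, ((Icc 1 n).image (fun d => (m + 1 - i * d, d))).card :=
            card_biUnion_le
        _ ≤ ∑ i ∈ range k, n := by
            apply sum_le_sum
            intro i _
            exact card_image_le.trans (by simp)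
        _ = k * n := by simp

/-- The term set of a progression. -/
def tset (k : ℕ) (p : ℕ × ℕ) : Finset ℕ := (range k).image (fun i => p.1 + i * p.2)

lemma prod_tset {k : ℕ} {p : ℕ × ℕ} (hp : 1 ≤ p.2) (f : ℕ → ℝ) :
    ∏ x ∈ tset k p, f x = ∏ i ∈ range k, f (p.1 + i * p.2) := by
  unfold tset
  apply prod_image
  intro i _ j _ hij
  simp only at hij
  have : i * p.2 = j * p.2 := by omega
  exact Nat.eq_of_mul_eq_mul_right (by omega) this

/-- The signs. -/
def sg (s : ℕ) : Fin (s + 2) → ℝ := Fin.cons 1 (Fin.cons (-1) (fun _ => 0))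

lemma sum_sg (s : ℕ) : ∑ c, sg s c = 0 := by
  simp [sg, Fin.sum_univ_succ]

lemma sg_abs (s : ℕ) (c : Fin (s + 2)) : |sg s c| ≤ 1 := by
  unfold sg
  refine Fin.cases ?_ (fun c => ?_) c
  · simp
  · rw [Fin.cons_succ]
    refine Fin.cases ?_ (fun c => ?_) c
    · simp
    · simp


lemma exists_col {k s : ℕ} (hk : 3 ≤ k) {h : ℕ} (hdiv : ∀ m, 1 ≤ m → m < k → m ∣ h)
    (t : ℝ) (ht : t = 1 / (32 * (k : ℝ) ^ 2 * 3 ^ k * (8 * (k : ℝ) ^ 3) ^ 3)) :
    ∃ χ : ℕ → Fin (s + 2), (mc k (8 * k * h) χ : ℝ) ≤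
      (1 / (2 * ((k : ℝ) - 1) * ((s : ℝ) + 2) ^ (k - 1))
        - t ^ 2 / (64 * (k : ℝ) ^ 2 * ((s : ℝ) + 2) ^ k)) * ((8 * k * h : ℕ) : ℝ) ^ 2 := by
  classical
  obtain ⟨e, he, hQ⟩ := quad hk hdiv
  set n := 8 * k * h with hn
  set A : ℝ := 8 * (k : ℝ) ^ 3 with hA
  have hk1 : (3 : ℝ) ≤ k := by exact_mod_cast hk
  have hA1 : 1 ≤ A := by
    have : (1 : ℝ) ≤ (k : ℝ) ^ 3 := one_le_pow₀ (by linarith)
    linarith
  have h3k : (1 : ℝ) ≤ 3 ^ k := one_le_pow₀ (by norm_num)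
  have hkk : (1 : ℝ) ≤ (k : ℝ) ^ 2 := one_le_pow₀ (by linarith)
  have ht0 : 0 < t := by rw [ht]; positivity
  -- the bound `t * A ≤ 1`
  have htA : t * A ≤ 1 := by
    rw [ht, div_mul_eq_mul_div, one_mul, div_le_one (by positivity)]
    have a1 : A ≤ A ^ 3 := by nlinarith [mul_nonneg (le_trans zero_le_one hA1) (sq_nonneg (A - 1)), mul_nonneg (sub_nonneg.mpr hA1) (le_trans zero_le_one hA1)]
    have a2 : (1 : ℝ) ≤ 32 * (k : ℝ) ^ 2 * 3 ^ k := by
      nlinarith [mul_nonneg (sub_nonneg.mpr hkk) (sub_nonneg.mpr h3k)]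
    calc A ≤ A ^ 3 := a1
      _ = 1 * A ^ 3 := (one_mul _).symm
      _ ≤ 32 * (k : ℝ) ^ 2 * 3 ^ k * A ^ 3 := by
        apply mul_le_mul_of_nonneg_right a2 (by positivity)
  set R : ℝ := (s : ℝ) + 2 with hR
  have hR0 : 0 < R := by positivity
  let p : ℕ → Fin (s + 2) → ℝ := fun x c => (1 + t * sg s c * e x) / R
  have hp : ∀ x c, 0 ≤ p x c := by
    intro x c
    apply div_nonneg _ hR0.le
    have h1 : |t * sg s c * e x| ≤ 1 := by
      rw [abs_mul, abs_mul, abs_of_pos ht0]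
      calc t * |sg s c| * |e x| ≤ t * 1 * A := by
            gcongr
            · exact sg_abs s c
            · exact he x
        _ ≤ 1 := by rw [mul_one]; exact htA
    linarith [(abs_le.mp h1).1]
  have hs : ∀ x, ∑ c, p x c = 1 := by
    intro x
    simp only [p]
    rw [← sum_div, sum_add_distrib, ← sum_mul, ← mul_sum, sum_sg]
    simp only [sum_const, card_univ, Fintype.card_fin, nsmul_eq_mul, mul_one, mul_zero, zero_mul,
      add_zero]
    rw [div_eq_one_iff_eq hR0.ne']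
    push_cast
    rfl
  obtain ⟨χ, hχ⟩ := derand (n + 1) (by omega) p hp hs (AP k n) (tset k) (by
    intro q hq x hx
    rw [mem_AP (by omega)] at hq
    unfold tset at hx
    obtain ⟨i, hi, rfl⟩ := mem_image.mp hx
    rw [mem_range] at hi ⊢
    have : i * q.2 ≤ (k - 1) * q.2 := Nat.mul_le_mul_right _ (by omega)
    omega)
  refine ⟨χ, ?_⟩
  have hmc : (mc k n χ : ℝ) =
      (((AP k n).filter (fun q => ∃ c, ∀ x ∈ tset k q, χ x = c)).card : ℝ) := by
    unfold mc tset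
    congr 2
    apply filter_congr
    intro q _
    simp only [mem_image, mem_range, forall_exists_index, and_imp, forall_apply_eq_imp_iff₂]
  rw [hmc]
  refine hχ.trans ?_
  -- bound the term of each progression
  have hterm : ∀ q ∈ AP k n, ∑ c, ∏ x ∈ tset k q, p x c ≤
      (1 / R ^ k) * (R + 2 * t ^ 2 * (∑ j ∈ range k, ∑ i ∈ range j,
        e (q.1 + i * q.2) * e (q.1 + j * q.2)) + 2 * (3 ^ k * (t * A) ^ 3)) := by
    intro q hq
    have hq2 : 1 ≤ q.2 := ((mem_AP (by omega)).mp hq).2.1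
    have h1 : ∀ c, ∏ x ∈ tset k q, p x c
        = (∏ i ∈ range k, (1 + t * sg s c * e (q.1 + i * q.2))) / R ^ k := by
      intro c
      rw [prod_tset hq2 (fun x => p x c)]
      simp only [p]
      rw [prod_div_distrib, prod_const, card_range]
    rw [sum_congr rfl (fun c _ => h1 c), ← sum_div, div_eq_mul_inv, mul_comm, ← one_div]
    apply mul_le_mul_of_nonneg_left _ (by positivity)
    rw [Fin.sum_univ_succ, Fin.sum_univ_succ]
    have g0 : sg s 0 = 1 := by simp [sg]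
    have g1 : sg s (Fin.succ 0) = -1 := by simp [sg]
    have g2 : ∀ c : Fin s, sg s (Fin.succ (Fin.succ c)) = 0 := by intro c; simp [sg]
    rw [g0, g1]
    simp only [g2]
    have h2 := (expand (fun i => t * 1 * e (q.1 + i * q.2)) (t * A) (by positivity) htA (by
      intro i
      rw [abs_mul, mul_one, abs_of_pos ht0]
      exact mul_le_mul_of_nonneg_left (he _) ht0.le) k).2.2
    have h3 := (expand (fun i => t * (-1) * e (q.1 + i * q.2)) (t * A) (by positivity) htA (by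
      intro i
      rw [abs_mul, abs_mul, abs_neg, abs_one, mul_one, abs_of_pos ht0]
      exact mul_le_mul_of_nonneg_left (he _) ht0.le) k).2.2
    have h2' := (abs_le.mp h2).2
    have h3' := (abs_le.mp h3).2
    have e1 : ∑ j ∈ range k, ∑ i ∈ range j, t * 1 * e (q.1 + i * q.2) * (t * 1 * e (q.1 + j * q.2))
        = t ^ 2 * ∑ j ∈ range k, ∑ i ∈ range j, e (q.1 + i * q.2) * e (q.1 + j * q.2) := by
      simp only [mul_sum]
      apply sum_congr rfl; intro j _
      apply sum_congr rfl; intro i _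
      ring
    have e2 : ∑ j ∈ range k, ∑ i ∈ range j,
        t * (-1) * e (q.1 + i * q.2) * (t * (-1) * e (q.1 + j * q.2))
        = t ^ 2 * ∑ j ∈ range k, ∑ i ∈ range j, e (q.1 + i * q.2) * e (q.1 + j * q.2) := by
      simp only [mul_sum]
      apply sum_congr rfl; intro j _
      apply sum_congr rfl; intro i _
      ring
    have e3 : ∑ i ∈ range k, t * (-1) * e (q.1 + i * q.2)
        = - ∑ i ∈ range k, t * 1 * e (q.1 + i * q.2) := by
      rw [← sum_neg_distrib]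
      apply sum_congr rfl; intro i _
      ring
    rw [e1] at h2'
    rw [e2, e3] at h3'
    have e4 : ∑ c : Fin s, ∏ i ∈ range k, (1 + t * 0 * e (q.1 + i * q.2)) = (s : ℝ) := by
      simp
    rw [e4, hR]
    linarith
  refine (sum_le_sum hterm).trans ?_
  rw [← mul_sum, sum_add_distrib, sum_add_distrib, ← mul_sum]
  rw [sum_const, sum_const, nsmul_eq_mul, nsmul_eq_mul]
  change (1 / R ^ k) * ((AP k n).card * R + 2 * t ^ 2 * Q k n e
    + (AP k n).card * (2 * (3 ^ k * (t * A) ^ 3))) ≤ _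
  set N : ℝ := ((AP k n).card : ℝ) with hN
  have hN1 : 2 * ((k : ℝ) - 1) * N ≤ (n : ℝ) ^ 2 := by
    have := card_AP_upper (k := k) (by omega) n
    have h5 : ((2 * (k - 1) * (AP k n).card : ℕ) : ℝ) ≤ ((n ^ 2 : ℕ) : ℝ) := by exact_mod_cast this
    push_cast [Nat.cast_sub (show 1 ≤ k by omega)] at h5
    exact h5
  have hN0 : 0 ≤ N := Nat.cast_nonneg _
  have hN2 : N ≤ (n : ℝ) ^ 2 / 4 := by nlinarith
  have hN3 : N ≤ (n : ℝ) ^ 2 / (2 * ((k : ℝ) - 1)) := by
    rw [le_div_iff₀ (by linarith)]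
    linarith
  have hnh : (n : ℝ) ^ 2 = 64 * (k : ℝ) ^ 2 * (h : ℝ) ^ 2 := by
    rw [hn]; push_cast; ring
  have hQ' : Q k n e ≤ - ((n : ℝ) ^ 2 / (64 * (k : ℝ) ^ 2)) := by
    rw [hnh, mul_div_cancel_left₀ _ (by positivity)]
    exact hQ
  have hcub : 3 ^ k * (t * A) ^ 3 = t ^ 2 / (32 * (k : ℝ) ^ 2) := by
    have : 3 ^ k * (t * A) ^ 3 = t ^ 2 * (3 ^ k * A ^ 3 * t) := by ring
    rw [this]
    have h6 : 3 ^ k * A ^ 3 * t = 1 / (32 * (k : ℝ) ^ 2) := by
      rw [ht]; field_simp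
    rw [h6]; ring
  rw [hcub]
  have h7 : N * R + 2 * t ^ 2 * Q k n e + N * (2 * (t ^ 2 / (32 * (k : ℝ) ^ 2)))
      ≤ (n : ℝ) ^ 2 / (2 * ((k : ℝ) - 1)) * R - t ^ 2 / (64 * (k : ℝ) ^ 2) * (n : ℝ) ^ 2 := by
    have a1 : N * R ≤ (n : ℝ) ^ 2 / (2 * ((k : ℝ) - 1)) * R :=
      mul_le_mul_of_nonneg_right hN3 hR0.le
    have a2 : 2 * t ^ 2 * Q k n e ≤ 2 * t ^ 2 * (- ((n : ℝ) ^ 2 / (64 * (k : ℝ) ^ 2))) :=
      mul_le_mul_of_nonneg_left hQ' (by positivity)
    have a3 : N * (2 * (t ^ 2 / (32 * (k : ℝ) ^ 2)))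
        ≤ (n : ℝ) ^ 2 / 4 * (2 * (t ^ 2 / (32 * (k : ℝ) ^ 2))) :=
      mul_le_mul_of_nonneg_right hN2 (by positivity)
    have a4 : 2 * t ^ 2 * (- ((n : ℝ) ^ 2 / (64 * (k : ℝ) ^ 2)))
        + (n : ℝ) ^ 2 / 4 * (2 * (t ^ 2 / (32 * (k : ℝ) ^ 2)))
        = - (t ^ 2 / (64 * (k : ℝ) ^ 2) * (n : ℝ) ^ 2) := by
      field_simp
      ring
    linarith
  refine (mul_le_mul_of_nonneg_left h7 (by positivity : (0:ℝ) ≤ 1 / R ^ k)).trans (le_of_eq ?_)
  have hRk : R ^ k = R * R ^ (k - 1) := by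
    rw [← pow_succ']; congr 1; omega
  have hk2 : (k : ℝ) - 1 ≠ 0 := by linarith
  rw [hRk]
  field_simp


/-- The number of monochromatic `k`-term arithmetic progressions of `χ` inside `[n] = {1, …, n}`,
progressions being counted as sets `{a, a + d, …, a + (k - 1) d}` with `a ≥ 1` and `d ≥ 1`. -/
noncomputable def monoCount (k n r : ℕ) (χ : ℕ → Fin r) : ℕ :=
  Set.ncard {S : Set ℕ | ∃ a d : ℕ, 1 ≤ a ∧ 1 ≤ d ∧ a + (k - 1) * d ≤ n ∧
    S = {x | ∃ i < k, x = a + i * d} ∧ ∃ c : Fin r, ∀ x ∈ S, χ x = c}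

lemma monoCount_eq {k n r : ℕ} (hk : 2 ≤ k) (χ : ℕ → Fin r) : monoCount k n r χ = mc k n χ := by
  classical
  unfold monoCount mc
  have h1 : {S : Set ℕ | ∃ a d : ℕ, 1 ≤ a ∧ 1 ≤ d ∧ a + (k - 1) * d ≤ n ∧
      S = {x | ∃ i < k, x = a + i * d} ∧ ∃ c : Fin r, ∀ x ∈ S, χ x = c}
      = (fun p : ℕ × ℕ => {x | ∃ i < k, x = p.1 + i * p.2}) ''
        (((AP k n).filter (fun p => ∃ c, ∀ i < k, χ (p.1 + i * p.2) = c) : Finset (ℕ × ℕ)) :
          Set (ℕ × ℕ)) := by
    ext S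
    simp only [Set.mem_ofPred_eq, Set.mem_image, mem_coe, mem_filter, mem_AP hk, Prod.exists]
    constructor
    · rintro ⟨a, d, h1, h2, h3, h4, c, hc⟩
      refine ⟨a, d, ⟨⟨h1, h2, h3⟩, c, fun i hi => hc _ ?_⟩, h4.symm⟩
      rw [h4]; exact ⟨i, hi, rfl⟩
    · rintro ⟨a, d, ⟨⟨h1, h2, h3⟩, c, hc⟩, h4⟩
      refine ⟨a, d, h1, h2, h3, h4.symm, c, ?_⟩
      rw [← h4]
      rintro x ⟨i, hi, rfl⟩
      exact hc i hi
  rw [h1, Set.InjOn.ncard_image, Set.ncard_coe_finset]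
  rintro ⟨a, d⟩ hp ⟨a', d'⟩ hp' hEq
  have hp1 := (mem_AP hk).mp (mem_filter.mp (mem_coe.mp hp)).1
  have hp2 := (mem_AP hk).mp (mem_filter.mp (mem_coe.mp hp')).1
  simp only at hp1 hp2 hEq
  have key : ∀ x, (∃ i < k, x = a + i * d) ↔ (∃ i < k, x = a' + i * d') := fun x => by
    have := Set.ext_iff.mp hEq x
    simpa using this
  have haa : a = a' := by
    obtain ⟨i, _, hi⟩ := (key a).mp ⟨0, by omega, by omega⟩
    obtain ⟨j, _, hj⟩ := (key a').mpr ⟨0, by omega, by omega⟩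
    omega
  subst haa
  have hdd : d = d' := by
    obtain ⟨i, _, hi⟩ := (key (a + d)).mp ⟨1, by omega, by omega⟩
    obtain ⟨j, _, hj⟩ := (key (a + d')).mpr ⟨1, by omega, by omega⟩
    have hi' : d = i * d' := by omega
    have hj' : d' = j * d := by omega
    have hi1 : 1 ≤ i := by
      rcases Nat.eq_zero_or_pos i with h0 | h0
      · rw [h0] at hi'; omega
      · exact h0
    have hj1 : 1 ≤ j := by
      rcases Nat.eq_zero_or_pos j with h0 | h0
      · rw [h0] at hj'; omega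
      · exact h0
    have a1 : d' ≤ i * d' := Nat.le_mul_of_pos_left _ hi1
    have a2 : d ≤ j * d := Nat.le_mul_of_pos_left _ hj1
    omega
  rw [hdd]

lemma main_aux {k s : ℕ} (hk : 3 ≤ k) :
    ∃ δ : ℝ, δ < 1 / (2 * ((k : ℝ) - 1) * ((s : ℝ) + 2) ^ (k - 1)) ∧
      ∃ C : ℝ, ∀ n : ℕ, ∃ χ : ℕ → Fin (s + 2), |(mc k n χ : ℝ) - δ * (n : ℝ) ^ 2| ≤ C * n := by
  have hk1 : (3 : ℝ) ≤ k := by exact_mod_cast hk
  set t : ℝ := 1 / (32 * (k : ℝ) ^ 2 * 3 ^ k * (8 * (k : ℝ) ^ 3) ^ 3) with ht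
  have ht0 : 0 < t := by rw [ht]; positivity
  have hs0 : (0 : ℝ) ≤ s := Nat.cast_nonneg s
  have hR1 : (1 : ℝ) ≤ (s : ℝ) + 2 := by linarith
  set rate : ℝ := 1 / (2 * ((k : ℝ) - 1) * ((s : ℝ) + 2) ^ (k - 1)) with hrate
  set η : ℝ := t ^ 2 / (64 * (k : ℝ) ^ 2 * ((s : ℝ) + 2) ^ k) with hη
  have hη0 : 0 < η := by rw [hη]; positivity
  have h3k : (1 : ℝ) ≤ 3 ^ k := one_le_pow₀ (by norm_num)
  have hkk : (1 : ℝ) ≤ (k : ℝ) ^ 2 := one_le_pow₀ (by linarith)
  have hkkk : (1 : ℝ) ≤ (k : ℝ) ^ 3 := one_le_pow₀ (by linarith)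
  have ht1 : t ≤ 1 := by
    rw [ht, div_le_one (by positivity)]
    have a1 : (1 : ℝ) ≤ (8 * (k : ℝ) ^ 3) ^ 3 := one_le_pow₀ (by linarith)
    have a2 : (1 : ℝ) ≤ 32 * (k : ℝ) ^ 2 := by linarith
    calc (1 : ℝ) = 1 * 1 * 1 := by norm_num
      _ ≤ 32 * (k : ℝ) ^ 2 * 3 ^ k * (8 * (k : ℝ) ^ 3) ^ 3 := by gcongr
  have hrate1 : rate ≤ 1 / (2 * ((k : ℝ) - 1)) := by
    rw [hrate]
    apply one_div_le_one_div_of_le (by linarith)
    have : (1 : ℝ) ≤ ((s : ℝ) + 2) ^ (k - 1) := one_le_pow₀ hR1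
    nlinarith
  have hηrate : η ≤ rate := by
    rw [hη, hrate, div_le_div_iff₀ (by positivity) (by
      apply mul_pos (by linarith) (by positivity))]
    have hRk : ((s : ℝ) + 2) ^ k = ((s : ℝ) + 2) * ((s : ℝ) + 2) ^ (k - 1) := by
      rw [← pow_succ']; congr 1; omega
    rw [hRk]
    have b1 : t ^ 2 ≤ 1 := pow_le_one₀ ht0.le ht1
    have b2 : 2 * ((k : ℝ) - 1) ≤ 64 * (k : ℝ) ^ 2 := by nlinarith
    have b3 : 0 < ((s : ℝ) + 2) ^ (k - 1) := by positivity
    calc t ^ 2 * (2 * ((k : ℝ) - 1) * ((s : ℝ) + 2) ^ (k - 1))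
        ≤ 1 * (64 * (k : ℝ) ^ 2 * ((s : ℝ) + 2) ^ (k - 1)) := by
          apply mul_le_mul b1 _ _ zero_le_one
          · exact mul_le_mul_of_nonneg_right b2 b3.le
          · apply mul_nonneg (by linarith) b3.le
      _ ≤ 1 * (64 * (k : ℝ) ^ 2 * (((s : ℝ) + 2) * ((s : ℝ) + 2) ^ (k - 1))) := by
          rw [one_mul, one_mul]
          apply mul_le_mul_of_nonneg_left _ (by positivity)
          nlinarith
  set δ : ℝ := rate - η with hδ
  have hδ0 : 0 ≤ δ := by rw [hδ]; linarith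
  have hδ1 : δ ≤ 1 / (2 * ((k : ℝ) - 1)) := by rw [hδ]; linarith
  refine ⟨δ, by rw [hδ]; linarith, ((8 * k * k.factorial : ℕ) : ℝ) + k + 2, ?_⟩
  intro n
  set n0 := 8 * k * k.factorial with hn0
  have hn0pos : 0 < n0 := by rw [hn0]; positivity
  set w := n / n0 with hw
  set h := k.factorial * w with hh
  have hdiv : ∀ m, 1 ≤ m → m < k → m ∣ h := by
    intro m h1 h2
    exact dvd_mul_of_dvd_left (Nat.dvd_factorial h1 h2.le) w
  obtain ⟨χ, hχ⟩ := exists_col (s := s) hk hdiv t ht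
  have hn' : 8 * k * h = n0 * w := by rw [hh, hn0]; ring
  rw [hn'] at hχ
  have hle : n0 * w ≤ n := Nat.mul_div_le n n0
  have hlt : n < n0 * w + n0 := by
    have := Nat.lt_mul_div_succ n hn0pos
    rw [mul_add, mul_one] at this
    exact this
  -- the bound for `χ` itself
  have hup : (mc k n χ : ℝ) ≤ δ * (n : ℝ) ^ 2 + n0 * n := by
    have h1 := mc_add (k := k) (by omega) (n0 * w) (n - n0 * w) χ
    rw [Nat.add_sub_cancel' hle] at h1
    have h2 : (n - n0 * w) * n ≤ n0 * n := Nat.mul_le_mul_right _ (by omega)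
    have h3 : mc k n χ ≤ mc k (n0 * w) χ + n0 * n := le_trans h1 (Nat.add_le_add_left h2 _)
    have h4 : (mc k n χ : ℝ) ≤ (mc k (n0 * w) χ : ℝ) + (n0 : ℝ) * n := by exact_mod_cast h3
    have h5 : ((n0 * w : ℕ) : ℝ) ^ 2 ≤ (n : ℝ) ^ 2 := by
      have : ((n0 * w : ℕ) : ℝ) ≤ (n : ℝ) := by exact_mod_cast hle
      exact pow_le_pow_left₀ (Nat.cast_nonneg _) this 2
    have h6 := mul_le_mul_of_nonneg_left h5 hδ0
    have h7 : (mc k (n0 * w) χ : ℝ) ≤ δ * ((n0 * w : ℕ) : ℝ) ^ 2 := hχ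
    linarith
  -- discrete intermediate value argument
  let c0 : Fin (s + 2) := 0
  have hex : ∃ m, δ * (n : ℝ) ^ 2 - 2 * n ≤ (mc k n (rec0 c0 χ m) : ℝ) := by
    refine ⟨n, ?_⟩
    rw [mc_rec_n (by omega)]
    have h1 := card_AP_lower (k := k) (by omega) n
    have h2 : ((n ^ 2 : ℕ) : ℝ) ≤ ((2 * (k - 1) * (AP k n).card + 4 * (k - 1) * n : ℕ) : ℝ) := by
      exact_mod_cast h1
    push_cast [Nat.cast_sub (show 1 ≤ k by omega)] at h2
    have hkp : (0 : ℝ) < 2 * ((k : ℝ) - 1) := by linarith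
    have h3 : δ * (n : ℝ) ^ 2 ≤ (n : ℝ) ^ 2 / (2 * ((k : ℝ) - 1)) := by
      have := mul_le_mul_of_nonneg_right hδ1 (sq_nonneg (n : ℝ))
      calc δ * (n : ℝ) ^ 2 ≤ 1 / (2 * ((k : ℝ) - 1)) * (n : ℝ) ^ 2 := this
        _ = (n : ℝ) ^ 2 / (2 * ((k : ℝ) - 1)) := by ring
    have h4 : (n : ℝ) ^ 2 / (2 * ((k : ℝ) - 1)) ≤ ((AP k n).card : ℝ) + 2 * n := by
      rw [div_le_iff₀ hkp]
      linarith
    linarith
  classical
  set m := Nat.find hex with hm
  have hmspec := Nat.find_spec hex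
  rw [← hm] at hmspec
  refine ⟨rec0 c0 χ m, ?_⟩
  have hn_nn : (0 : ℝ) ≤ n := Nat.cast_nonneg n
  have hk_nn : (0 : ℝ) ≤ k := Nat.cast_nonneg k
  have hn0_nn : (0 : ℝ) ≤ (n0 : ℝ) := Nat.cast_nonneg _
  have hupper : (mc k n (rec0 c0 χ m) : ℝ) ≤ δ * (n : ℝ) ^ 2 + ((n0 : ℝ) + k) * n := by
    rcases Nat.eq_zero_or_pos m with h0 | h0
    · rw [h0, mc_rec_zero (by omega)]
      nlinarith [mul_nonneg hk_nn hn_nn]
    · obtain ⟨m', hm'⟩ : ∃ m', m = m' + 1 := ⟨m - 1, by omega⟩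
      have h1 := Nat.find_min hex (show m' < Nat.find hex by rw [← hm]; omega)
      push Not at h1
      have h2 := mc_rec_succ (k := k) n m' c0 χ
      rw [hm']
      have h3 : (mc k n (rec0 c0 χ (m' + 1)) : ℝ)
          ≤ (mc k n (rec0 c0 χ m') : ℝ) + (k : ℝ) * n := by exact_mod_cast h2
      nlinarith [mul_nonneg hn0_nn hn_nn]
  rw [abs_le]
  constructor
  · nlinarith [mul_nonneg hn0_nn hn_nn, mul_nonneg hk_nn hn_nn]
  · nlinarith [mul_nonneg hn0_nn hn_nn, mul_nonneg hk_nn hn_nn]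

/-- For all `k ≥ 3` and `r ≥ 2` some constant strictly below the random rate is attained. -/
theorem result : ∀ k : ℕ, 3 ≤ k → ∀ r : ℕ, 2 ≤ r →
    ∃ δ : ℝ, δ < 1 / (2 * ((k : ℝ) - 1) * (r : ℝ) ^ (k - 1)) ∧
      ∃ χ : (n : ℕ) → ℕ → Fin r, ∃ C : ℝ, ∀ n : ℕ,
        |(monoCount k n r (χ n) : ℝ) - δ * (n : ℝ) ^ 2| ≤ C * (n : ℝ) := by
  intro k hk r hr
  obtain ⟨s, rfl⟩ : ∃ s, r = s + 2 := ⟨r - 2, by omega⟩
  obtain ⟨δ, hδ, C, hC⟩ := main_aux (k := k) (s := s) hk
  choose χ hχ using hC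
  refine ⟨δ, ?_, χ, C, fun n => ?_⟩
  · push_cast
    exact hδ
  · rw [monoCount_eq (by omega)]
    exact hχ n


end Pool.Agent.Results.MP_6bff71_co.BeatRandom
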